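import Pool.Agent.H3.J17.H
import Pool.Agent.H3.L17.BSD
import Pool.Agent.H3.X15.LFun
import Pool.Agent.H3.X15.Fin
import Pool.Graph.R_pool_sql_team_seeded_620a6dc7.H757_X15.DN.Fin

/-!
# The weak conjecture of Birch and Swinnerton-Dyer for the same quadratic twist of two non-isogenous
# curves, for a positive proportion of twists, and the independence of the two events

`E : y² = x³ - 91 x - 330` has conductor `17`, `E' : y² = x³ - 12987 x - 263466` is `X_0(15)`. They are
not isogenous over `ℚ̄`, have no complex multiplication and no rational isogeny of odd degree. For a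
positive squarefree integer `D` let `E_D : y² = x³ - 91 D² x - 330 D³` and
`E'_D : y² = x³ - 12987 D² x - 263466 D³` be their quadratic twists by `D`.

`D` runs over the class of the squarefree numbers which are `≡ 1` or `49` modulo `60` and squares
modulo `17`; there is no other restriction on the prime factors of `D`, so that the class has positive
density `85 / (576 π²)` among all positive integers.

`Good17 D`: the symmetric matrix `[[N, R], [Rᵀ, A]]` over `F₂` is invertible, where `R` has the entry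
`[(p/q) = -1]` at the prime factors `p ≠ q` of `D` and row sums zero, and `N = diag [(17/p) = -1]`,
`A = diag [p ≡ 3 mod 4]`.
`Good15 D`: the only positive divisor `d` of `D` with `(d/p) = 1` for the primes `p` which divide `D`
but not `d`, `(-(D/d)/p) = 1` for the primes `p` dividing `d`, and `(d/5) = 1`, is `d = 1`.

If `D ≠ 1` is `Good17`, then `L(E_D, 1) ≠ 0` and `E_D(ℚ)` is finite; if `D ≠ 1` is `Good15`, then
`L(E'_D, 1) ≠ 0` and `E'_D(ℚ)` is finite. In every residue class modulo every `m` which contains an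
element of the class, the proportion of the `D` which are `Good15` is exactly
`c15 = ∏ (1 - 2^{-i}) = 0.2887...`, the proportion of the `D` which are `Good17` is exactly
`c17 = ∏ (1 - 2^{-(2i+1)}) = 0.4194...`, and the proportion of the `D` with both properties is exactly
the product `c15 c17 = 0.1211...`: the two events are independent. In particular for a positive
proportion of all positive integers `D`, the central values of both twists do not vanish and both
groups are finite.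

The central values and their 2-adic valuations, and the main analytic and combinatorial tools of the
joint law (a large sieve for the Legendre symbols, the joint law of a random system and a random
alternating form) are from unfinished library modules (`Pool.Graph.R_pool_sql_team_seeded_620a6dc7`,
`R_pool_sql_team_seeded_63374d34`); the two-descents (`Pool.Agent.H3.X15`, `L17`) and the joint law
for the two criteria (`Pool.Agent.H3.J17`) are new.
-/

set_option autoImplicit false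

namespace Pool.Agent.Results.MP_8b7eba_nt.SimultaneousTwists1517

open Filter Finset
open scoped Classical

/-- `f` is an entire function with the Euler product of `y² = x³ + A x + B` -/
def IsLFun (A B : ℤ) (f : ℂ → ℂ) : Prop :=
  Differentiable ℂ f ∧
    (∀ s : ℂ, (3 : ℝ) / 2 < s.re →
      HasProd
        (fun p : ℕ =>
          if p.Prime ∧ ¬ ((p : ℤ) ∣ 2 * (4 * A ^ 3 + 27 * B ^ 2)) then
            (1 - ((p : ℂ) - (Nat.card {q : ZMod p × ZMod p //
                q.2 ^ 2 = q.1 ^ 3 + (A : ZMod p) * q.1 + (B : ZMod p)} : ℂ))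
                * (p : ℂ) ^ (-s) + (p : ℂ) ^ (1 - 2 * s))⁻¹
          else 1)
        (f s))

/-- the affine rational points -/
def Pts (A B : ℤ) : Set (ℚ × ℚ) := {q : ℚ × ℚ | q.2 ^ 2 = q.1 ^ 3 + (A : ℚ) * q.1 + (B : ℚ)}

/-- the equivalence of the problem holds for `y² = x³ + A x + B`, which has an L-function, and both
of its sides are false: `L(E, 1) ≠ 0` and there are finitely many rational points -/
def WeakBSD (A B : ℤ) : Prop :=
  (∀ f : ℂ → ℂ, IsLFun A B f → (f 1 = 0 ↔ (Pts A B).Infinite)) ∧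
    (∃ f : ℂ → ℂ, IsLFun A B f ∧ f 1 ≠ 0) ∧ (Pts A B).Finite

/-- the class of the numbers -/
def Cls (D : ℕ) : Prop := Squarefree D ∧ (D % 60 = 1 ∨ D % 60 = 49) ∧ jacobiSym D 17 = 1

/-- the criterion for `E'_D` -/
def Good15 (D : ℕ) : Prop := ∀ d : ℕ, d ∣ D →
  (∀ p : ℕ, p.Prime → p ∣ D → ¬ p ∣ d → jacobiSym d p = 1) →
  (∀ p : ℕ, p.Prime → p ∣ d → jacobiSym (-((D / d : ℕ) : ℤ)) p = 1) →
  jacobiSym d 5 = 1 → d = 1

/-- the Legendre symbol `(a / p)`, written additively -/
def sb (a p : ℕ) : ZMod 2 := if jacobiSym a p = 1 then 0 else 1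

/-- the matrix `R` with row sums zero -/
def R (D p q : ℕ) : ZMod 2 :=
  if p = q then ∑ r ∈ D.primeFactors.erase p, sb p r else sb p q

/-- the criterion for `E_D`: the matrix `[[N, R], [Rᵀ, A]]` has trivial kernel -/
def Good17 (D : ℕ) : Prop := ∀ x y : ℕ → ZMod 2,
  (∀ p ∈ D.primeFactors, sb 17 p * x p + ∑ q ∈ D.primeFactors, R D p q * y q = 0) →
  (∀ q ∈ D.primeFactors,
    ∑ p ∈ D.primeFactors, R D p q * x p + (if q % 4 = 3 then 1 else 0) * y q = 0) →
  ∀ p ∈ D.primeFactors, x p = 0 ∧ y p = 0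

/-- the proportion of the elements `D ≤ X` of the class, `D ≡ r` modulo `m`, with the property `P` -/
noncomputable def prop (m r : ℕ) (P : ℕ → Prop) (X : ℕ) : ℝ :=
  (((Icc 1 X).filter fun D => (Cls D ∧ D % m = r) ∧ P D).card : ℝ) /
    (((Icc 1 X).filter fun D => Cls D ∧ D % m = r).card : ℝ)

/-- the constant `(1 - 1/2) (1 - 1/4) (1 - 1/8) ⋯` -/
noncomputable def c15 : ℝ := ∏' i : ℕ, (1 - (1 / 2 : ℝ) ^ (i + 1))

/-- the constant `(1 - 1/2) (1 - 1/8) (1 - 1/32) ⋯` -/
noncomputable def c17 : ℝ := ∏' i : ℕ, (1 - (1 / 2 : ℝ) ^ (2 * i + 1))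

theorem uniq {f g : ℂ → ℂ} (hf : Differentiable ℂ f) (hg : Differentiable ℂ g)
    (h : ∀ s : ℂ, (3 : ℝ) / 2 < s.re → f s = g s) : f = g := by
  have hf' : AnalyticOnNhd ℂ f Set.univ := hf.differentiableOn.analyticOnNhd isOpen_univ
  have hg' : AnalyticOnNhd ℂ g Set.univ := hg.differentiableOn.analyticOnNhd isOpen_univ
  have hev : f =ᶠ[nhds (2 : ℂ)] g := by
    have hopen : IsOpen {s : ℂ | (3 : ℝ) / 2 < s.re} :=
      isOpen_lt continuous_const Complex.continuous_re
    exact Filter.eventually_of_mem (hopen.mem_nhds (by norm_num)) fun s hs => h s hs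
  funext z
  exact hf'.eqOn_of_preconnected_of_eventuallyEq hg' isPreconnected_univ (Set.mem_univ _) hev
    (Set.mem_univ z)

theorem weak_of {A B : ℤ} (h1 : ∃ F : ℂ → ℂ, Differentiable ℂ F ∧
    (∀ s : ℂ, (3 : ℝ) / 2 < s.re →
      HasProd
        (fun p : ℕ =>
          if p.Prime ∧ ¬ ((p : ℤ) ∣ 2 * (-4 * A ^ 3 - 27 * B ^ 2)) then
            (1 - ((p : ℂ) - (Nat.card {q : ZMod p × ZMod p //
                q.2 ^ 2 = q.1 ^ 3 + (A : ZMod p) * q.1 + (B : ZMod p)} : ℂ))
                * (p : ℂ) ^ (-s) + (p : ℂ) ^ (1 - 2 * s))⁻¹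
          else 1)
        (F s)) ∧ F 1 ≠ 0) (h2 : (Pts A B).Finite) : WeakBSD A B := by
  obtain ⟨f, hf1, hf2, hf3⟩ := h1
  have hfL : IsLFun A B f := by
    refine ⟨hf1, fun s hs => ?_⟩
    have h := hf2 s hs
    have e : (2 * (4 * A ^ 3 + 27 * B ^ 2) : ℤ) = -(2 * (-4 * A ^ 3 - 27 * B ^ 2)) := by ring
    simp only [e, dvd_neg]
    exact h
  refine ⟨fun g hg => ?_, ⟨f, hfL, hf3⟩, h2⟩
  have hgf : g = f := uniq hg.1 hf1 fun s hs => (hg.2 s hs).unique (hfL.2 s hs)
  rw [hgf]
  exact ⟨fun h => absurd h hf3, fun h => absurd h2 h⟩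

/-! ### The criterion of level 17 -/

section
variable {D : ℕ}

theorem cls_facts (hD : Cls D) : (∀ p ∈ D.primeFactors, p.Prime ∧ p ≠ 2 ∧ p ≠ 17) ∧ D % 4 = 1 ∧
    ¬ 17 ∣ D := by
  have h17 : ¬ 17 ∣ D := by
    intro h
    have h1 := (Pool.Agent.H3.J17.cls_iff hD.1).1 hD.2
    exact h1.2.2 h
  refine ⟨fun p hp => ⟨Nat.prime_of_mem_primeFactors hp, ?_, ?_⟩, ?_, h17⟩
  · rintro rfl
    have h2 : 2 ∣ D := Nat.dvd_of_mem_primeFactors hp
    rcases hD.2.1 with h | h <;> omega
  · rintro rfl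
    exact h17 (Nat.dvd_of_mem_primeFactors hp)
  · rcases hD.2.1 with h | h <;> omega

theorem sb_nr {p q : ℕ} (hp : p.Prime) (hq : q.Prime) (hne : p ≠ q) :
    sb q p = Pool.Agent.Y703.CQ.nr p q := by
  unfold sb
  rw [Pool.Agent.H757_X15.DD.jac_nr hp hq hne]
  have : ∀ a : ZMod 2, (if Pool.Agent.H757_X15.DD.sI a = 1 then (0 : ZMod 2) else 1) = a := by
    decide
  exact this _

theorem good17_iff (hD : Cls D) : Good17 D ↔ Pool.Agent.N969.P17G.SxP D := by
  obtain ⟨hpr, h4, h17⟩ := cls_facts hD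
  have hpar := Pool.Agent.N916.MO.parP0 h4
  have e1 : ∀ p ∈ D.primeFactors, ∀ q ∈ D.primeFactors, p ≠ q →
      Pool.Agent.N969.P17G.lsP D q p = sb p q := by
    intro p hp q hq hpq
    rw [Pool.Agent.N916.MO.lsP_sy hpar (hpr p hp).1 (hpr q hq).1 hpq
      (fun h => by rcases h with h | h; exacts [absurd h (hpr p hp).2.1, absurd h (hpr q hq).2.1]),
      Pool.Agent.N958.GB.sy_ne 0 0 (hpr q hq).2.1, sb_nr (hpr q hq).1 (hpr p hp).1 (Ne.symm hpq)]
  have e2 : ∀ p ∈ D.primeFactors, ∀ q ∈ D.primeFactors,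
      Pool.Agent.N969.P17G.LLP D p q = R D p q := by
    intro p hp q hq
    unfold Pool.Agent.N969.P17G.LLP R
    by_cases h : p = q
    · rw [if_pos h, if_pos h]
      refine sum_congr rfl fun r hr => ?_
      obtain ⟨h1, h2⟩ := mem_erase.1 hr
      exact e1 p hp r h2 (Ne.symm h1)
    · rw [if_neg h, if_neg h]
      exact e1 p hp q hq h
  have e3 : ∀ q ∈ D.primeFactors, Pool.Agent.N969.P17G.alP D q = if q % 4 = 3 then 1 else 0 := by
    intro q hq
    rw [Pool.Agent.N916.MO.alP_ud hpar (hpr q hq).1 (fun h => absurd h (hpr q hq).2.1),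
      if_neg (hpr q hq).2.1]
    rfl
  have e4 : ∀ p ∈ D.primeFactors, Pool.Agent.N972.P17.nu p = sb 17 p := by
    intro p hp
    unfold Pool.Agent.N972.P17.nu sb
    rw [if_neg (hpr p hp).2.1]
    rfl
  have r1 : ∀ (x y : ℕ → ZMod 2), (∀ p ∈ D.primeFactors, sb 17 p * x p +
      ∑ q ∈ D.primeFactors, R D p q * y q = 0) ↔ (∀ p ∈ D.primeFactors,
      Pool.Agent.N972.P17.nu p * x p +
        ∑ q ∈ D.primeFactors, Pool.Agent.N969.P17G.LLP D p q * y q = 0) := by
    intro x y
    refine forall₂_congr fun p hp => ?_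
    have e : ∑ q ∈ D.primeFactors, Pool.Agent.N969.P17G.LLP D p q * y q =
        ∑ q ∈ D.primeFactors, R D p q * y q := sum_congr rfl fun q hq => by rw [e2 p hp q hq]
    rw [e4 p hp, e]
  have r2 : ∀ (x y : ℕ → ZMod 2), (∀ q ∈ D.primeFactors, ∑ p ∈ D.primeFactors, R D p q * x p +
      (if q % 4 = 3 then 1 else 0) * y q = 0) ↔ (∀ q ∈ D.primeFactors,
      ∑ p ∈ D.primeFactors, Pool.Agent.N969.P17G.LLP D p q * x p +
        Pool.Agent.N969.P17G.alP D q * y q = 0) := by
    intro x y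
    refine forall₂_congr fun q hq => ?_
    have e : ∑ p ∈ D.primeFactors, Pool.Agent.N969.P17G.LLP D p q * x p =
        ∑ p ∈ D.primeFactors, R D p q * x p := sum_congr rfl fun p hp => by rw [e2 p hp q hq]
    rw [e3 q hq, e]
  unfold Good17 Pool.Agent.N969.P17G.SxP
  simp only [r1, r2]

theorem good17_gu (hD : Cls D) : Good17 D ↔ Pool.Agent.N916.MO.Gu false 0 0 D.primeFactors := by
  obtain ⟨hpr, h4, h17⟩ := cls_facts hD
  rw [good17_iff hD]
  exact Pool.Agent.N916.MO.SxP_iff (M := D) (Pool.Agent.N916.MO.parP0 h4) rfl (by omega) h17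

theorem good17_cri (hD : Cls D) : Good17 D ↔ Pool.Agent.H3.L17.Cri (D : ℤ) := by
  obtain ⟨hpr, h4, h17⟩ := cls_facts hD
  rw [good17_iff hD, Pool.Agent.H3.L17.sxp_cri h17]

end

/-- **Simultaneous nonvanishing and finiteness, and independence.** -/
theorem result :
    (∀ D : ℕ, Cls D → D ≠ 1 → Good17 D → WeakBSD (-91 * (D : ℤ) ^ 2) (-330 * (D : ℤ) ^ 3)) ∧
    (∀ D : ℕ, Cls D → D ≠ 1 → Good15 D → WeakBSD (-12987 * (D : ℤ) ^ 2) (-263466 * (D : ℤ) ^ 3)) ∧
    (∀ m r : ℕ, 0 < m → (∃ D, Cls D ∧ D % m = r) →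
      Tendsto (prop m r Good15) atTop (nhds c15) ∧
      Tendsto (prop m r Good17) atTop (nhds c17) ∧
      Tendsto (prop m r fun D => Good15 D ∧ Good17 D) atTop (nhds (c15 * c17))) ∧
    Tendsto (fun X : ℕ => (((Icc 1 X).filter Cls).card : ℝ) / X) atTop
      (nhds (85 / (576 * Real.pi ^ 2))) ∧
    0.1210 < c15 * c17 ∧ c15 * c17 < 0.1212 := by
  have b15 := Pool.Agent.H757_X15.DD.t_LA1.2.2.2
  have b17 := Pool.Agent.Y948.CQ.t_C2.2.2.2
  have b15' : 0.2887 < c15 ∧ c15 < 0.2888 := b15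
  have b17' : 0.4194 < c17 ∧ c17 < 0.4195 := b17
  have e15 : c15 = Pool.Agent.N916.GB.eta := rfl
  have e17 : c17 = Pool.Agent.Y703.CQ.c2 := rfl
  refine ⟨?_, ?_, ?_, ?_, ?_, ?_⟩
  · intro D hD h1 hG
    have hsq : Squarefree (D : ℤ) := by
      rw [Int.squarefree_natCast]
      exact hD.1
    have hpos : 0 < D := Nat.pos_of_ne_zero hD.1.ne_zero
    obtain ⟨hpr, h4, h17⟩ := cls_facts hD
    have hdisc : Pool.Agent.H3.L17.disc (D : ℤ) = D := by
      unfold Pool.Agent.H3.L17.disc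
      rw [if_pos (by omega)]
    have hC : Pool.Agent.H3.L17.Cri (Pool.Agent.H3.L17.disc (D : ℤ)) := by
      rw [hdisc]
      exact (good17_cri hD).1 hG
    have hR : Pool.Agent.N919.BS.Rt17 (D : ℤ) := Or.inl ⟨by exact_mod_cast hpos, hD.2.2⟩
    obtain ⟨F, h2, h3, h4', h5⟩ := Pool.Agent.H3.L17.bsd hsq (by exact_mod_cast h1) hR hC
    refine weak_of ⟨F, h2, h3, ?_⟩ (Pool.Agent.H3.L17.finPts hsq hC)
    exact (h2.analyticAt 1).analyticOrderAt_eq_zero.1 h4'
  · intro D hD h1 hG
    obtain ⟨⟨F, hF1, hF2, hF3⟩, -, hfin, -⟩ := Pool.Agent.H3.X15.main hD.1 hD.2.1 h1 hG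
    refine weak_of ⟨F, hF1, hF2, hF3⟩ ?_
    exact Pool.Agent.H3.X15.finPts hD.1 hfin
  · rintro m r hm ⟨n₀, hn₀⟩
    obtain ⟨hs, hk⟩ := (Pool.Agent.H3.J17.cls_mem hm n₀).1 hn₀
    refine ⟨?_, ?_, ?_⟩
    · exact Pool.Agent.H3.J17.lim_one hm hs hk (P := Good15)
        (fun D hD h1 => Pool.Agent.H3.J17.crit_gj hD h1) (Pool.Agent.H3.J17.lim15 hm hs hk)
    · exact Pool.Agent.H3.J17.lim_one hm hs hk (P := Good17)
        (fun D hD _ => good17_gu hD) (Pool.Agent.H3.J17.lim17 hm hs hk)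
    · exact Pool.Agent.H3.J17.lim_one hm hs hk (P := fun D => Good15 D ∧ Good17 D)
        (fun D hD h1 => and_congr (Pool.Agent.H3.J17.crit_gj hD h1) (good17_gu hD))
        (Pool.Agent.H3.J17.lim1517 hm hs hk)
  · exact Pool.Agent.H3.J17.cls_dens
  · nlinarith [b15'.1, b17'.1, b15'.2, b17'.2]
  · nlinarith [b15'.1, b17'.1, b15'.2, b17'.2]

end Pool.Agent.Results.MP_8b7eba_nt.SimultaneousTwists1517
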