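import Pool.Agent.H51.N15.Dens

/-!
# The weak conjecture of Birch and Swinnerton-Dyer for the imaginary quadratic twists of `X_0(15)`

`E = X_0(15) : y² = x³ - 12987 x - 263466` is an elliptic curve of conductor `15` without complex
multiplication and without rational isogeny of degree `3`. For a negative fundamental discriminant
`-n` let `N = core n` be the squarefree number with `ℚ(√-n) = ℚ(√-N)` (so `N = n` or `N = n / 4`). The
quadratic twist of `E` by `-n` is `E_n : y² = x³ - 12987 N² x + 263466 N³`.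

`n` runs over the class `Cls` of the `n` for which `3` is not inert and `5` does not split in
`ℚ(√-n)`. There is no other restriction: `n` may be even and divisible by `3` and `5`, and has any
number of prime factors. These are exactly `35 / 96` of all the negative fundamental discriminants.

`Good n`: there is no squarefree divisor `d` of `n` besides `1` and `N` such that the Hilbert symbols
`(d, -n)_p` at the odd prime factors `p` of `n` are trivial. (By genus theory this says for the `n` of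
the class that `ℚ(√-n)` has no ideal class of order four; this is not used and not part of the
theorem.)

If `n ≠ 3` is a good number of the class, then `L(E_n, 1) ≠ 0` and `E_n(ℚ)` is finite. The proportion
of the good numbers in the class is exactly `c = ∏ (1 - 2^{-i}) = 0.2887...`. Consequently, the
equivalence `L(E_n, 1) = 0 ↔ E_n(ℚ) is infinite` holds for at least `10.5` per cent of all the twists
of `X_0(15)` by imaginary quadratic fields, ordered by the discriminant.

The Lean proof is complete. The modular side (modular symbols of `X_0(15)`, a ternary quadratic form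
and a formula of Gross type for the central values, the `2`-adic valuation of the coefficients) and
the density of the criterion (for imaginary quadratic fields without classes of order four this is
the theorem of Fouvry and Klüners) are from unfinished library modules
(`Pool.Graph.R_pool_sql_team_seeded_63374d34`); the two-descent for the twists (`Pool.Agent.H51.N15`,
with the primes `2`, `3`, `5` dividing `n` allowed), the density of the class and the assembly are new.
-/

set_option autoImplicit false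

namespace Pool.Agent.Results.MP_8b7eba_nt.ImaginaryTwistsX015

open Filter Finset
open scoped Classical

/-- `f` is an entire function with the Euler product of `y² = x³ + A x + B` -/
def IsLFun (A B : ℤ) (f : ℂ → ℂ) : Prop :=
  Differentiable ℂ f ∧
    (∀ s : ℂ, (3 : ℝ) / 2 < s.re →
      HasProd
        (fun p : ℕ =>
          if p.Prime ∧ ¬ ((p : ℤ) ∣ 2 * (4 * A ^ 3 + 27 * B ^ 2)) then
            (1 - ((p : ℂ) - (Nat.card {q : ZMod p × ZMod p //
                q.2 ^ 2 = q.1 ^ 3 + (A : ZMod p) * q.1 + (B : ZMod p)} : ℂ))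
                * (p : ℂ) ^ (-s) + (p : ℂ) ^ (1 - 2 * s))⁻¹
          else 1)
        (f s))

/-- the affine rational points -/
def Pts (A B : ℤ) : Set (ℚ × ℚ) := {q : ℚ × ℚ | q.2 ^ 2 = q.1 ^ 3 + (A : ℚ) * q.1 + (B : ℚ)}

/-- the equivalence of the problem holds for `y² = x³ + A x + B`, which has an L-function, and both
of its sides are false: `L(E, 1) ≠ 0` and there are finitely many rational points -/
def WeakBSD (A B : ℤ) : Prop :=
  (∀ f : ℂ → ℂ, IsLFun A B f → (f 1 = 0 ↔ (Pts A B).Infinite)) ∧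
    (∃ f : ℂ → ℂ, IsLFun A B f ∧ f 1 ≠ 0) ∧ (Pts A B).Finite

/-- `-n` is a fundamental discriminant -/
def Fund (n : ℕ) : Prop :=
  (Squarefree n ∧ n % 4 = 3) ∨ (∃ N : ℕ, n = 4 * N ∧ Squarefree N ∧ (N % 4 = 1 ∨ N % 4 = 2))

/-- the squarefree number `N` with `ℚ(√-n) = ℚ(√-N)`, for a fundamental discriminant `-n` -/
def core (n : ℕ) : ℕ := if n % 4 = 0 then n / 4 else n

/-- the class: in the field `ℚ(√-n)` the prime `3` is not inert and the prime `5` does not split -/
def Cls (n : ℕ) : Prop := Fund n ∧ n % 3 ≠ 1 ∧ n % 5 ≠ 1 ∧ n % 5 ≠ 4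

/-- the criterion: there is no squarefree divisor `d` of `n` besides `1` and `core n` such that the
Hilbert symbols `(d, -n)_p` at the odd primes `p` dividing `n` are trivial -/
def Good (n : ℕ) : Prop := ∀ d : ℕ, d ∣ n → Squarefree d →
  (∀ p : ℕ, p.Prime → p ≠ 2 → p ∣ n →
    jacobiSym (if p ∣ d then ((d / p * (core n / p) : ℕ) : ℤ) else d) p = 1) →
  d = 1 ∨ d = core n

/-- the constant `(1 - 1/2) (1 - 1/4) (1 - 1/8) ⋯` -/
noncomputable def c : ℝ := ∏' i : ℕ, (1 - (1 / 2 : ℝ) ^ (i + 1))

theorem uniq {f g : ℂ → ℂ} (hf : Differentiable ℂ f) (hg : Differentiable ℂ g)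
    (h : ∀ s : ℂ, (3 : ℝ) / 2 < s.re → f s = g s) : f = g := by
  have hf' : AnalyticOnNhd ℂ f Set.univ := hf.differentiableOn.analyticOnNhd isOpen_univ
  have hg' : AnalyticOnNhd ℂ g Set.univ := hg.differentiableOn.analyticOnNhd isOpen_univ
  have hev : f =ᶠ[nhds (2 : ℂ)] g := by
    have hopen : IsOpen {s : ℂ | (3 : ℝ) / 2 < s.re} :=
      isOpen_lt continuous_const Complex.continuous_re
    exact Filter.eventually_of_mem (hopen.mem_nhds (by norm_num)) fun s hs => h s hs
  funext z
  exact hf'.eqOn_of_preconnected_of_eventuallyEq hg' isPreconnected_univ (Set.mem_univ _) hev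
    (Set.mem_univ z)

theorem weak_of {A B : ℤ} (h1 : ∃ F : ℂ → ℂ, Differentiable ℂ F ∧
    (∀ s : ℂ, (3 : ℝ) / 2 < s.re →
      HasProd
        (fun p : ℕ =>
          if p.Prime ∧ ¬ ((p : ℤ) ∣ 2 * (-4 * A ^ 3 - 27 * B ^ 2)) then
            (1 - ((p : ℂ) - (Nat.card {q : ZMod p × ZMod p //
                q.2 ^ 2 = q.1 ^ 3 + (A : ZMod p) * q.1 + (B : ZMod p)} : ℂ))
                * (p : ℂ) ^ (-s) + (p : ℂ) ^ (1 - 2 * s))⁻¹
          else 1)
        (F s)) ∧ F 1 ≠ 0) (h2 : (Pts A B).Finite) : WeakBSD A B := by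
  obtain ⟨f, hf1, hf2, hf3⟩ := h1
  have hfL : IsLFun A B f := by
    refine ⟨hf1, fun s hs => ?_⟩
    have h := hf2 s hs
    have e : (2 * (4 * A ^ 3 + 27 * B ^ 2) : ℤ) = -(2 * (-4 * A ^ 3 - 27 * B ^ 2)) := by ring
    simp only [e, dvd_neg]
    exact h
  refine ⟨fun g hg => ?_, ⟨f, hfL, hf3⟩, h2⟩
  have hgf : g = f := uniq hg.1 hf1 fun s hs => (hg.2 s hs).unique (hfL.2 s hs)
  rw [hgf]
  exact ⟨fun h => absurd h hf3, fun h => absurd h2 h⟩

theorem core_ne {n : ℕ} (hn : Fund n) : core n ≠ 0 := by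
  unfold core
  rcases hn with ⟨h1, h2⟩ | ⟨N, rfl, h1, -⟩
  · rw [if_neg (by omega)]
    exact h1.ne_zero
  · rw [if_pos (by omega)]
    have := h1.ne_zero
    omega

/-- the weak conjecture for a class member -/
theorem weak {n : ℕ} (hn : Cls n) (hne : n ≠ 3) (hG : Good n) :
    WeakBSD (-12987 * (core n : ℤ) ^ 2) (263466 * (core n : ℤ) ^ 3) := by
  obtain ⟨hF, h3, h5⟩ := hn
  obtain ⟨h1, -, hfin, -⟩ := Pool.Agent.H51.N15.main hF h3 h5 hne hG
  have hm : (-(core n : ℤ)) ≠ 0 := neg_ne_zero.2 (by exact_mod_cast core_ne hF)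
  have h2 := Pool.Agent.H51.N15.finPtsZ hm hfin
  have e1 : -12987 * (-(core n : ℤ)) ^ 2 = -12987 * (core n : ℤ) ^ 2 := by ring
  have e2 : -263466 * (-(core n : ℤ)) ^ 3 = 263466 * (core n : ℤ) ^ 3 := by ring
  have h1' : WeakBSD (-12987 * (-(core n : ℤ)) ^ 2) (-263466 * (-(core n : ℤ)) ^ 3) :=
    weak_of h1 h2
  rwa [e1, e2] at h1'

/-- the proportion of the good numbers -/
theorem lim_good : Tendsto (fun X : ℕ => (((Icc 1 X).filter fun n => Cls n ∧ Good n).card : ℝ) /
    (((Icc 1 X).filter Cls).card : ℝ)) atTop (nhds c) := by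
  refine Pool.Agent.N916.TE.density_T3.congr fun X => ?_
  have hcl : ∀ n : ℕ, Cls n ↔ (Pool.Agent.N916.TE.FD n ∧ (n % 3 ≠ 1 ∧ (n % 5 = 0 ∨
      n % 5 = 2 ∨ n % 5 = 3))) := by
    intro n
    refine and_congr Iff.rfl (and_congr Iff.rfl ?_)
    omega
  congr 2
  · refine congrArg card (filter_congr fun n _ => ?_)
    constructor
    · rintro ⟨h1, h2, h3⟩
      exact ⟨(hcl n).2 ⟨h1, h2⟩, (Pool.Agent.H51.N15.good_go h1).2 h3⟩
    · rintro ⟨h1, h2⟩
      obtain ⟨h3, h4⟩ := (hcl n).1 h1
      exact ⟨h3, h4, (Pool.Agent.H51.N15.good_go h3).1 h2⟩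
  · exact congrArg card (filter_congr fun n _ => (hcl n).symm)

/-- the proportion of the class -/
theorem lim_cls : Tendsto (fun X : ℕ => (((Icc 1 X).filter Cls).card : ℝ) /
    (((Icc 1 X).filter Fund).card : ℝ)) atTop (nhds (35 / 96)) := by
  refine Pool.Agent.H51.N15.prop_class.congr fun X => ?_
  congr 2
  exact congrArg card (filter_congr fun n _ => Iff.rfl)

/-- **The weak conjecture for the imaginary quadratic twists of `X_0(15)`.** -/
theorem result :
    (∀ n : ℕ, Cls n → n ≠ 3 → Good n →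
      WeakBSD (-12987 * (core n : ℤ) ^ 2) (263466 * (core n : ℤ) ^ 3)) ∧
    Tendsto (fun X : ℕ => (((Icc 1 X).filter fun n => Cls n ∧ Good n).card : ℝ) /
      (((Icc 1 X).filter Cls).card : ℝ)) atTop (nhds c) ∧
    Tendsto (fun X : ℕ => (((Icc 1 X).filter Cls).card : ℝ) /
      (((Icc 1 X).filter Fund).card : ℝ)) atTop (nhds (35 / 96)) ∧
    0.2887 < c ∧ c < 0.2889 ∧
    ∀ᶠ X : ℕ in atTop, 0.105 * (((Icc 1 X).filter Fund).card : ℝ) ≤
      (((Icc 1 X).filter fun n => Fund n ∧
        WeakBSD (-12987 * (core n : ℤ) ^ 2) (263466 * (core n : ℤ) ^ 3)).card : ℝ) := by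
  have hc : 0.2887 < c ∧ c < 0.2889 := Pool.Agent.N916.GB.eta_bounds
  refine ⟨fun n h1 h2 h3 => weak h1 h2 h3, lim_good, lim_cls, hc.1, hc.2, ?_⟩
  have h1 := lim_good.mul lim_cls
  have h2 : 0.1052 < c * (35 / 96) := by
    have := hc.1
    norm_num at this ⊢
    linarith
  have h3 : Tendsto (fun X : ℕ => (((Icc 1 X).filter Fund).card : ℝ)) atTop atTop :=
    Pool.Agent.H51.N15.fund_atTop
  filter_upwards [h1.eventually (lt_mem_nhds h2), h3.eventually (eventually_ge_atTop 10000)]
    with X h4 h5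
  set G := (((Icc 1 X).filter fun n => Cls n ∧ Good n).card : ℝ) with hG
  set C := (((Icc 1 X).filter Cls).card : ℝ) with hC
  set F := (((Icc 1 X).filter Fund).card : ℝ) with hF
  have hF0 : 0 < F := by linarith
  have hC0 : C ≠ 0 := by
    intro h0
    rw [h0] at h4
    norm_num at h4
  have h6 : G / C * (C / F) = G / F := div_mul_div_cancel₀ hC0
  rw [h6, lt_div_iff₀ hF0] at h4
  have h7 : ((Icc 1 X).filter fun n => Cls n ∧ Good n).card ≤
      ((Icc 1 X).filter fun n => Fund n ∧
        WeakBSD (-12987 * (core n : ℤ) ^ 2) (263466 * (core n : ℤ) ^ 3)).card + 1 := by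
    have h8 : ((Icc 1 X).filter fun n => Cls n ∧ Good n) ⊆
        insert 3 ((Icc 1 X).filter fun n => Fund n ∧
          WeakBSD (-12987 * (core n : ℤ) ^ 2) (263466 * (core n : ℤ) ^ 3)) := by
      intro n hn
      obtain ⟨h9, h10, h11⟩ := mem_filter.1 hn
      rw [mem_insert]
      by_cases hn3 : n = 3
      · exact Or.inl hn3
      · exact Or.inr (mem_filter.2 ⟨h9, h10.1, weak h10 hn3 h11⟩)
    exact (card_le_card h8).trans (card_insert_le _ _)
  have h8 : G ≤ (((Icc 1 X).filter fun n => Fund n ∧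
        WeakBSD (-12987 * (core n : ℤ) ^ 2) (263466 * (core n : ℤ) ^ 3)).card : ℝ) + 1 := by
    rw [hG]
    exact_mod_cast h7
  linarith

end Pool.Agent.Results.MP_8b7eba_nt.ImaginaryTwistsX015
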