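import Pool.Agent.H3.X14.Crit

/-!
# The weak conjecture of Birch and Swinnerton-Dyer for twists of `X_0(14)` by products of arbitrarily
# many split and inert primes

`E = X_0(14) : y² + x y + y = x³ + 4 x - 6`, `y² = x³ + 5805 x - 285714`. The class consists of the
squarefree numbers `D` all whose prime factors `p` are either split (`p ≡ 1` modulo `8` and `p` is a
square modulo `7`) or inert (`p ≠ 3`, `p ≡ 3, 5` modulo `8` and `p` is not a square modulo `7`), the
number of the prime factors `≡ 5` modulo `8` being even; the number of the split prime factors is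
arbitrary. The twist is by `D* = ± D ≡ 1` modulo `4`; both signs occur.

`D` is good if the only divisor `d` of `D` with split prime factors such that `(d / p) = 1` for the
split prime factors `p` of `D / d` and `((D / d) / p) = -1` or `1` according as `p` is or is not of
the form `2 f² + 7 g²`, for the prime factors `p` of `d`, is `d = 1`.

If `D` is good, then `L(E_D*, 1) ≠ 0` and `E_D*(ℚ)` is finite, so that the equivalence of the problem
holds for `E_D*`. The good numbers form exactly the proportion `c = ∏_{i ≥ 0} (1 - 2^{-(2 i + 1)}) =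
0.4194...` of the class, and for different `M_1, ..., M_n` in the class the events that the `M_i D`
(without their square parts) are good are independent.

The modules of the runs before (`Pool.Graph.R_seed8...`, projects Z700-Z705, Y17, CQ, JQ) contain
the parts; the assembly for any number of split primes of both signs (`Pool.Agent.H3.X14`) is new.
-/

set_option autoImplicit false

namespace Pool.Agent.Results.MP_8b7eba_nt.ManyPrimeTwistsX014

open Filter Finset
open scoped Classical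

/-- `f` is an entire function with the Euler product of `y² = x³ + A x + B` -/
def IsLFun (A B : ℤ) (f : ℂ → ℂ) : Prop :=
  Differentiable ℂ f ∧
    (∀ s : ℂ, (3 : ℝ) / 2 < s.re →
      HasProd
        (fun p : {p : ℕ // p.Prime ∧ ¬ ((p : ℤ) ∣ 2 * (4 * A ^ 3 + 27 * B ^ 2))} =>
          ((1 : ℂ)
            - ((((p.1 : ℤ) - (Nat.card {q : ZMod p.1 × ZMod p.1 //
                  q.2 ^ 2 = q.1 ^ 3 + (A : ZMod p.1) * q.1 + (B : ZMod p.1)} : ℤ)) : ℤ) : ℂ)
                * ((p.1 : ℂ) ^ (-s))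
            + (p.1 : ℂ) ^ (1 - 2 * s))⁻¹)
        (f s))

/-- the affine rational points -/
def Pts (A B : ℤ) : Set (ℚ × ℚ) := {q : ℚ × ℚ | q.2 ^ 2 = q.1 ^ 3 + (A : ℚ) * q.1 + (B : ℚ)}

/-- the equivalence of the problem holds for `y² = x³ + A x + B`, which has an L-function, and both
of its sides are false: `L(E, 1) ≠ 0` and there are finitely many rational points -/
def WeakBSD (A B : ℤ) : Prop :=
  (∀ f : ℂ → ℂ, IsLFun A B f → (f 1 = 0 ↔ (Pts A B).Infinite)) ∧
    (∃ f : ℂ → ℂ, IsLFun A B f ∧ f 1 ≠ 0) ∧ (Pts A B).Finite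

/-- the class of the numbers -/
def Cls (D : ℕ) : Prop := Squarefree D ∧
  (∀ p : ℕ, p.Prime → p ∣ D → (p % 8 = 1 ∧ (p % 7 = 1 ∨ p % 7 = 2 ∨ p % 7 = 4)) ∨
    (p ≠ 3 ∧ (p % 8 = 3 ∨ p % 8 = 5) ∧ (p % 7 = 3 ∨ p % 7 = 5 ∨ p % 7 = 6))) ∧
  (D.primeFactors.filter fun p => p % 8 = 5).card % 2 = 0

/-- the criterion -/
def Good (D : ℕ) : Prop := ∀ d : ℕ, d ∣ D → (∀ p : ℕ, p.Prime → p ∣ d → p % 8 = 1) →
  (∀ p : ℕ, p.Prime → p ∣ D → p % 8 = 1 → ¬ p ∣ d → jacobiSym d p = 1) →
  (∀ p : ℕ, p.Prime → p ∣ d → (jacobiSym ((D / d : ℕ) : ℤ) p = -1 ↔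
    ∃ f g : ℕ, p = 2 * f ^ 2 + 7 * g ^ 2)) → d = 1

/-- `± D`, congruent to `1` modulo `4` -/
def star (D : ℕ) : ℤ := if D % 4 = 1 then (D : ℤ) else -(D : ℤ)

/-- the product `M D` without its square part, for squarefree `M` and `D` -/
def twist (M D : ℕ) : ℕ := M * D / Nat.gcd M D ^ 2

/-- the constant `(1 - 1/2) (1 - 1/8) (1 - 1/32) ⋯` -/
noncomputable def c : ℝ := ∏' i : ℕ, (1 - (1 / 2 : ℝ) ^ (2 * i + 1))

theorem uniq {f g : ℂ → ℂ} (hf : Differentiable ℂ f) (hg : Differentiable ℂ g)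
    (h : ∀ s : ℂ, (3 : ℝ) / 2 < s.re → f s = g s) : f = g := by
  have hf' : AnalyticOnNhd ℂ f Set.univ := hf.differentiableOn.analyticOnNhd isOpen_univ
  have hg' : AnalyticOnNhd ℂ g Set.univ := hg.differentiableOn.analyticOnNhd isOpen_univ
  have hev : f =ᶠ[nhds (2 : ℂ)] g := by
    have hopen : IsOpen {s : ℂ | (3 : ℝ) / 2 < s.re} :=
      isOpen_lt continuous_const Complex.continuous_re
    exact Filter.eventually_of_mem (hopen.mem_nhds (by norm_num)) fun s hs => h s hs
  funext z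
  exact hf'.eqOn_of_preconnected_of_eventuallyEq hg' isPreconnected_univ (Set.mem_univ _) hev
    (Set.mem_univ z)

/-- **The weak conjecture for the twists of `X_0(14)` by products of arbitrarily many primes.** -/
theorem result :
    (∀ D : ℕ, Cls D → Good D → WeakBSD (5805 * star D ^ 2) (-285714 * star D ^ 3)) ∧
    (∀ T V : Finset ℕ, (∀ M ∈ T, Cls M) → V ⊆ T →
      Tendsto (fun X : ℕ => (((Icc 1 X).filter fun D => Cls D ∧
          ∀ M ∈ T, (Good (twist M D) ↔ M ∈ V)).card : ℝ) /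
        (((Icc 1 X).filter fun D => Cls D).card : ℝ))
        atTop (nhds (c ^ V.card * (1 - c) ^ (T \ V).card))) ∧
    (∃ (a : ℝ) (X₀ : ℕ), 0 < a ∧ ∀ X : ℕ, X₀ ≤ X →
      a * X * (Real.log X) ^ (-(5 / 8) : ℝ) ≤ (((Icc 1 X).filter fun D => Cls D).card : ℝ)) ∧
    0.4194 < c ∧ c < 0.4195 := by
  refine ⟨?_, ?_, ?_, ?_, ?_⟩
  · intro D hD hG
    have hcl := ((Pool.Agent.H3.X14.cls_iff D).1 hD).2
    have hDp : Pool.Agent.Z700.pr D.primeFactors = D :=
      Nat.prod_primeFactors_of_squarefree hD.1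
    have hA : Pool.Agent.Y17.G.Cl D.primeFactors := by
      refine ⟨fun p hp => ?_, fun h3 => ?_⟩
      · rcases hcl.1 p hp with h | h
        · exact Or.inl h
        · refine Or.inr ⟨h.1, ?_, h.2.2.2⟩
          simpa using h.2.2.1
      · rcases hcl.1 3 h3 with h | h
        · have := h.2.1
          omega
        · exact h.2.1 rfl
    have hW := Pool.Agent.H3.X14.WB_tw hA hD.2.2 ((Pool.Agent.H3.X14.good_iff hD.1).1 hG)
    have hs : Pool.Agent.H3.X14.tw D.primeFactors = star D := by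
      unfold Pool.Agent.H3.X14.tw star
      rw [hDp]
    rw [hs] at hW
    obtain ⟨⟨f, hf1, hf2, hf3⟩, hfin⟩ := hW
    have hfL : IsLFun (5805 * star D ^ 2) (-285714 * star D ^ 3) f := ⟨hf1, hf2⟩
    refine ⟨fun g hg => ?_, ⟨f, hfL, hf3⟩, hfin⟩
    have hgf : g = f := uniq hg.1 hf1 fun s hs => (hg.2 s hs).unique (hf2 s hs)
    rw [hgf]
    exact ⟨fun h => absurd h hf3, fun h => absurd hfin h⟩
  · intro T V hT hV
    exact Pool.Agent.H3.X14.law T V hT hV
  · obtain ⟨a, X₀, ha, hX⟩ := Pool.Agent.Y302.CQ.t_LOW Pool.Agent.Y405.CQ.t_MER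
      Pool.Agent.Y302.CQ.t_CHE {3, 5} {0, 1} ⟨Or.inr rfl, Or.inl (by simp)⟩
    refine ⟨a, X₀, ha, fun X hX₀ => ?_⟩
    have h1 := hX X hX₀
    have e2 := Pool.Agent.Y514.CQ.card_eq {3, 5} {0, 1} X (fun _ => True)
    rw [Finset.filter_true] at e2
    simp only [and_true] at e2
    rw [← e2] at h1
    have e3 : (-1 + Pool.Agent.Y703.CQ.dl {3, 5} : ℝ) = -(5 / 8) := by
      unfold Pool.Agent.Y703.CQ.dl
      norm_num
    rw [e3] at h1
    refine h1.trans (le_of_eq ?_)
    congr 1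
    refine congrArg card (filter_congr fun D _ => ?_)
    exact (Pool.Agent.H3.X14.cls_iff D).symm
  · exact Pool.Agent.Y948.CQ.t_C2.2.2.2.1
  · exact Pool.Agent.Y948.CQ.t_C2.2.2.2.2

end Pool.Agent.Results.MP_8b7eba_nt.ManyPrimeTwistsX014
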